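import Pool.Agent.Helper53.AE.GoalsB

/-!
# Packet AE-ONE (MP_8130e1_an): the step of the construction
-/

set_option autoImplicit false

open scoped ComplexOrder Topology
open Filter TopologicalSpace

namespace Pool.Agent.Helper71.AE

open Pool.Agent.Helper53.AE

theorem norm_Pj_le {M : Type} [CStarAlgebra M] {P : M} (h : Pj P) : ‖P‖ ≤ 1 := by
  have h1 : ‖P‖ * ‖P‖ = ‖P‖ := by
    rw [← CStarRing.norm_star_mul_self, h.1, h.2]
  by_contra hc
  push Not at hc
  nlinarith [norm_nonneg P]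

/-- the corner `P F' P` -/
def corner {M : Type} [CStarAlgebra M] (F' : NonUnitalStarSubalgebra ℂ M) (P : M)
    (hP : star P = P) : NonUnitalStarSubalgebra ℂ M where
  carrier := {z | z ∈ F' ∧ P * z = z ∧ z * P = z}
  add_mem' := by
    rintro a b ⟨ha, ha1, ha2⟩ ⟨hb, hb1, hb2⟩
    exact ⟨add_mem ha hb, by rw [mul_add, ha1, hb1], by rw [add_mul, ha2, hb2]⟩
  zero_mem' := ⟨zero_mem _, mul_zero _, zero_mul _⟩
  mul_mem' := by
    rintro a b ⟨ha, ha1, ha2⟩ ⟨hb, hb1, hb2⟩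
    exact ⟨mul_mem ha hb, by rw [← mul_assoc, ha1], by rw [mul_assoc, hb2]⟩
  smul_mem' := by
    rintro c a ⟨ha, ha1, ha2⟩
    exact ⟨SMulMemClass.smul_mem c ha, by rw [mul_smul_comm, ha1], by rw [smul_mul_assoc, ha2]⟩
  star_mem' := by
    rintro a ⟨ha, ha1, ha2⟩
    refine ⟨star_mem ha, ?_, ?_⟩
    · have := congrArg star ha2
      rwa [star_mul, hP] at this
    · have := congrArg star ha1
      rwa [star_mul, hP] at this

theorem mem_corner {M : Type} [CStarAlgebra M] (F' : NonUnitalStarSubalgebra ℂ M) (P : M)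
    (hP : star P = P) (z : M) : z ∈ corner F' P hP ↔ z ∈ F' ∧ P * z = z ∧ z * P = z := Iff.rfl

theorem corner_finite {M : Type} [CStarAlgebra M] (F' : NonUnitalStarSubalgebra ℂ M)
    (hF : FiniteDimensional ℂ F') (P : M) (hP : star P = P) :
    FiniteDimensional ℂ (corner F' P hP) := by
  let j : corner F' P hP →ₗ[ℂ] F' :=
    { toFun := fun z => ⟨z.1, z.2.1⟩
      map_add' := fun _ _ => rfl
      map_smul' := fun _ _ => rfl }
  refine FiniteDimensional.of_injective j ?_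
  intro a b h
  apply Subtype.ext
  exact congrArg (fun z : F' => (z : M)) h

theorem brt_mono {C : Type} [CStarAlgebra C] {F : ℕ → NonUnitalStarSubalgebra ℂ C} (hF : Brt F) :
    Monotone F := monotone_nat_of_le_succ fun n => (hF.1 n).2.2

theorem brt_approx {C : Type} [CStarAlgebra C] {F : ℕ → NonUnitalStarSubalgebra ℂ C}
    (hF : Brt F) (n : ℕ) (x : Fin n → C) (ε : ℝ) (hε : 0 < ε) :
    ∃ (k : ℕ) (c : Fin n → C), (∀ i, c i ∈ F k) ∧ ∀ i, ‖x i - c i‖ < ε := by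
  have h1 : ∀ i, ∃ (k : ℕ) (c : C), c ∈ F k ∧ ‖x i - c‖ < ε := by
    intro i
    obtain ⟨c, hc, hd⟩ := Metric.mem_closure_iff.1 (hF.2 (x i)) ε hε
    obtain ⟨k, hk⟩ := Set.mem_iUnion.1 hc
    exact ⟨k, c, hk, by rwa [← dist_eq_norm]⟩
  choose k c hc hd using h1
  refine ⟨Finset.univ.sup k, c, fun i => ?_, hd⟩
  exact brt_mono hF (Finset.le_sup (Finset.mem_univ i)) (hc i)

theorem t (hPRX : S_PRX) (hMU1 : S_MU1) (hKAP : S_KAP) (hBND : S_BND) (hSTL : S_STL) :
    S_ONE := by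
  classical
  intro A B C M _ _ _ _ D hI hL s₁ s₂ hCz θ ι hinj F hF σ hσ E s h1 hstar hs1 hpos n x P hPD hPj
    S δ hSD hδ
  have hP1 := norm_Pj_le hPj
  set a : Fin n → M := fun i => P * θ (s (x i)) * P with ha
  have haD : ∀ i, a i ∈ D := fun i => (hI.2 _ _ hPD).1
  obtain ⟨F', hF'fd, hF'D, hF'P, hF'a⟩ := hPRX M D hI hL 1 (fun _ => P) (fun _ => ⟨hPD, hPj⟩)
    (fun i j hij => absurd (Subsingleton.elim i j) hij) (Finset.univ.image a) (δ / 8)
    (by
      intro z hz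
      obtain ⟨i, _, rfl⟩ := Finset.mem_image.1 hz
      exact haD i) (by positivity)
  have hP' : P ∈ F' := hF'P 0
  set G := corner F' P hPj.1 with hG
  have hGP : P ∈ G := ⟨hP', hPj.2, hPj.2⟩
  obtain ⟨m', r, f, hMf, hspn, hunit⟩ := hMU1 M G (corner_finite F' hF'fd P hPj.1)
  have hsum : ∑ p, f p p = P := by
    have e1 := (hunit P hGP).1
    have e2 : ∑ p, f p p ∈ G :=
      sum_mem fun p _ => (hspn _).2 (Submodule.subset_span ⟨(p, p), rfl⟩)
    rw [← e1]
    exact e2.2.2.symm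
  obtain ⟨κ, hκ1, hκP, hκa⟩ := hKAP A B C M θ ι hinj E s h1 hstar hs1 hpos m' r f hMf
  rw [hsum] at hκ1
  have hκa' : ∀ i, ‖κ (ι (x i)) - a i‖ ≤ 3 * (δ / 8) := by
    intro i
    obtain ⟨y, hy, hd⟩ := hF'a (a i) (Finset.mem_image_of_mem a (Finset.mem_univ i))
    have hyG : P * y * P ∈ G := by
      refine ⟨mul_mem (mul_mem hP' hy) hP', ?_, ?_⟩
      · rw [← mul_assoc, ← mul_assoc, hPj.2]
      · rw [mul_assoc, hPj.2]
    have h2 := hκa (x i) _ ((hspn _).1 hyG)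
    rw [hsum] at h2
    have h3 : P * θ (s (x i)) * P - P * y * P = P * (a i - y) * P := by
      rw [ha, mul_sub, sub_mul]
      congr 1
      show _ = P * (P * θ (s (x i)) * P) * P
      rw [← mul_assoc, ← mul_assoc, hPj.2, mul_assoc (P * θ (s (x i))) P P, hPj.2]
    have h4 : ‖P * (a i - y) * P‖ ≤ ‖a i - y‖ := by
      calc ‖P * (a i - y) * P‖ ≤ ‖P * (a i - y)‖ * ‖P‖ := norm_mul_le _ _
        _ ≤ (‖P‖ * ‖a i - y‖) * ‖P‖ := by gcongr; exact norm_mul_le _ _
        _ ≤ (1 * ‖a i - y‖) * 1 := by gcongr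
        _ = ‖a i - y‖ := by ring
    rw [h3] at h2
    calc ‖κ (ι (x i)) - a i‖ ≤ 3 * ‖P * (a i - y) * P‖ := h2
      _ ≤ 3 * (δ / 8) := by
        have := h4.trans hd.le
        linarith
  have hκb : ∀ c, ‖κ c‖ ≤ 2 * ‖c‖ := by
    refine hBND C M κ (fun k Y => ?_) (by rw [hκ1]; exact hP1)
    obtain ⟨L, W, _, hW⟩ := hκP k Y
    exact ⟨L, W, fun _ _ => Set.mem_univ _, hW⟩
  obtain ⟨k, c, hck, hcd⟩ := brt_approx hF n (fun i => ι (x i)) (δ / 16) (by positivity)
  obtain ⟨m, b, e, hMe, hspe, hue⟩ := hMU1 C (F k) (hF.1 k).1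
  have hYe : ∀ i j, star (e (b i) i) * e (b j) j = e i j := by
    intro i j
    rw [hMe.star]
    by_cases hij : b i = b j
    · rw [← hij]
      exact hMe.mul i (b i) j (hMe.root i).symm (by rw [hMe.root i, hij])
    · rw [hMe.orth _ _ _ _ hij, hMe.zero i j hij]
  obtain ⟨L, W, hWf, hW⟩ := hκP m fun i => e (b i) i
  have hWD : ∀ l i, W l i ∈ D := fun l i => hF'D ((hspn _).2 (hWf l i)).1
  obtain ⟨X, hXD, hX1, hX2⟩ := hSTL C M D hI hL s₁ s₂ hCz σ m b e hMe
    (fun i => hσ k (e i i) ((hspe _).2 (Submodule.subset_span ⟨(i, i), rfl⟩))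
      ⟨hMe.star i i, hMe.mul i i i rfl rfl⟩ (hMe.ne i)) L W hWD S δ hSD hδ
  have key' : ∀ z ∈ spn e, star X * σ z * X = κ z := by
    intro z hz
    unfold spn at hz
    induction hz using Submodule.span_induction with
    | mem u hu =>
      obtain ⟨⟨i, j⟩, rfl⟩ := hu
      show star X * σ (e i j) * X = κ (e i j)
      by_cases hij : b i = b j
      · rw [hX1 i j hij, ← hW i j]
        show κ (star (e (b i) i) * e (b j) j) = κ (e i j)
        rw [hYe]
      · rw [hMe.zero i j hij, map_zero, map_zero, mul_zero, zero_mul]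
    | zero => rw [map_zero, map_zero, mul_zero, zero_mul]
    | add u v hu hv iu iv => rw [map_add, map_add, mul_add, add_mul, iu, iv]
    | smul l u hu iu => rw [map_smul, map_smul, mul_smul_comm, smul_mul_assoc, iu]
  have key : ∀ z ∈ F k, star X * σ z * X = κ z := fun z hz => key' z ((hspe z).1 hz)
  have hXX : star X * X = P := by
    have := key 1 (hF.1 k).2.1
    rwa [map_one, mul_one, hκ1] at this
  have hX : ‖X‖ ≤ 1 := by
    have h2 : ‖X‖ * ‖X‖ ≤ 1 := by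
      rw [← CStarRing.norm_star_mul_self, hXX]
      exact hP1
    nlinarith [norm_nonneg X]
  refine ⟨X, hXD, hXX, fun i => ?_, hX2⟩
  have e1 : star X * σ (ι (x i)) * X - P * θ (s (x i)) * P =
      star X * σ (ι (x i) - c i) * X + (κ (c i - ι (x i)) + (κ (ι (x i)) - a i)) := by
    rw [map_sub, map_sub, mul_sub, sub_mul, key (c i) (hck i), ha]
    abel
  have e2 : ‖star X * σ (ι (x i) - c i) * X‖ ≤ ‖ι (x i) - c i‖ := by
    calc ‖star X * σ (ι (x i) - c i) * X‖ ≤ ‖star X * σ (ι (x i) - c i)‖ * ‖X‖ := norm_mul_le _ _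
      _ ≤ (‖star X‖ * ‖σ (ι (x i) - c i)‖) * ‖X‖ := by gcongr; exact norm_mul_le _ _
      _ ≤ (1 * ‖ι (x i) - c i‖) * 1 := by
        gcongr
        · rwa [norm_star]
        · exact NonUnitalStarAlgHom.norm_apply_le σ _
      _ = ‖ι (x i) - c i‖ := by ring
  have e3 : ‖κ (c i - ι (x i))‖ ≤ 2 * ‖ι (x i) - c i‖ := by
    have := hκb (c i - ι (x i))
    rwa [norm_sub_rev (c i)] at this
  have e4 := hcd i
  rw [e1]
  calc ‖star X * σ (ι (x i) - c i) * X + (κ (c i - ι (x i)) + (κ (ι (x i)) - a i))‖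
      ≤ ‖star X * σ (ι (x i) - c i) * X‖ + (‖κ (c i - ι (x i))‖ + ‖κ (ι (x i)) - a i‖) :=
        (norm_add_le _ _).trans (by gcongr; exact norm_add_le _ _)
    _ < δ := by
      have e5 := hκa' i
      linarith

end Pool.Agent.Helper71.AE
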